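import Pool.Agent.MP_181f73_al.H78.NoPrim

/-! The cocycle stays at a positive distance from the bounded coboundaries. -/

set_option autoImplicit false

namespace Pool.Agent.MP_181f73_al.H22

open Finset FreeGroup Pool.Agent.MP_181f73_al.H78

section
variable {ψ : G → G → G → ℝ} {ρ : G → G → G → G → ℝ} {B : ℝ}
  (hB : ∀ (x0 x1 x2 : G) (T : Finset G), ∑ g ∈ T, ψ (g * x0) (g * x1) (g * x2) ^ 2 ≤ B)
  (hρ : ∀ (x0 x1 x2 x3 : G) (T : Finset G),
    ∑ g ∈ T, ρ (g * x0) (g * x1) (g * x2) (g * x3) ^ 2 ≤ 1 / 128)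
include hB hρ

variable (hd : ∀ y0 y1 y2 y3 : G,
  phi y0 y1 y2 y3 = ψ y1 y2 y3 - ψ y0 y2 y3 + ψ y0 y1 y3 - ψ y0 y1 y2 + ρ y0 y1 y2 y3)
include hd

lemma step (j n1 n2 : ℕ) (hn1 : 4 ^ (j + 1) ≤ n1) (hn2 : 4 ^ (j + 2) ≤ n2) :
    (1 : ℝ) / 32 ≤
      20 * H ψ (n1 + 4 ^ (j + 1)) (n2 + 1) (n2 + 1) (Ico (7 * 4 ^ j) (8 * 4 ^ j)) +
      40 * H ψ n1 (n2 + 4 ^ (j + 1) + 1) 1 (Ico (3 * 4 ^ j) (4 ^ (j + 1))) +
      5 * ∑ d ∈ Ico (3 * 4 ^ j) (4 ^ (j + 1)), B / 2 ^ d := by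
  set L := 4 ^ (j + 1) with hL
  set Dj := Ico (3 * 4 ^ j) L with hDj
  have h4 : L = 4 * 4 ^ j := by rw [hL]; ring
  have h5 : 4 ^ (j + 2) = 16 * 4 ^ j := by ring
  have hp : 1 ≤ 4 ^ j := Nat.one_le_pow _ _ (by norm_num)
  -- the four terms
  let t0 : Wd → Wd → Wd → Wd → ℝ := fun u v s t => ∑ d ∈ Dj,
    ψ (P (u.drop (n1 - d)) * P (v ++ 0 :: s)) (P (u.drop (n1 - d)) * P (v ++ 1 :: t))
      (P (u.drop (n1 - d)) * P [nx v]) ^ 2
  let t1 : Wd → Wd → Wd → ℝ := fun u v t => ∑ d ∈ Dj, Q ψ u (v ++ 1 :: t) [nx v] d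
  let t2 : Wd → Wd → Wd → ℝ := fun u v s => ∑ d ∈ Dj, Q ψ u (v ++ 0 :: s) [nx v] d
  let t3 : Wd → Wd → Wd → Wd → ℝ := fun u v s t =>
    ∑ d ∈ Ico (7 * 4 ^ j) (8 * 4 ^ j), Q ψ (u ++ v) (0 :: s) (1 :: t) d
  let t4 : Wd → Wd → Wd → Wd → ℝ := fun u v s t => ∑ d ∈ Dj,
    ρ (P (u.drop (n1 - d)) * (P u)⁻¹) (P (u.drop (n1 - d)) * P (v ++ 0 :: s))
      (P (u.drop (n1 - d)) * P (v ++ 1 :: t)) (P (u.drop (n1 - d)) * P [nx v]) ^ 2
  have b4 : ∀ u v s t : Wd, u.length = n1 → t4 u v s t ≤ 1 / 128 := by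
    classical
    intro u v s t hu
    have hinj : Set.InjOn (fun d => P (u.drop (n1 - d))) (Dj : Finset ℕ) := by
      intro d hd d' hd' h
      have h1 := congrArg List.length (P_inj h)
      have k1 := (mem_Ico.1 (mem_coe.1 hd)).2
      have k2 := (mem_Ico.1 (mem_coe.1 hd')).2
      simp only [List.length_drop] at h1
      omega
    have := hρ (P u)⁻¹ (P (v ++ 0 :: s)) (P (v ++ 1 :: t)) (P [nx v])
      (Dj.image fun d => P (u.drop (n1 - d)))
    rwa [sum_image hinj] at this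
  let lo : Wd → Wd → ℝ := fun s t => ∑ d ∈ Dj,
    ((d : ℝ) / 8 ^ (j + 1)) ^ 2 * (ind s[3 * L - d - 2]? - ind t[3 * L - d - 2]?) ^ 2
  have pt : ∀ u v s t : Wd, u.length = n1 → v.length = L →
      lo s t ≤ 5 * t0 u v s t + 5 * t1 u v t + 5 * t2 u v s + 5 * t3 u v s t + 5 * t4 u v s t := by
    intro u v s t hu hv
    have e3 : t3 u v s t = ∑ d ∈ Dj, Q ψ (u ++ v) (0 :: s) (1 :: t) (d + L) := by
      simp only [t3, hDj]
      rw [sum_Ico_add' (fun d => Q ψ (u ++ v) (0 :: s) (1 :: t) d)]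
      congr 2 <;> omega
    rw [e3]
    simp only [lo, t0, t1, t2, t4, mul_sum, ← sum_add_distrib]
    refine sum_le_sum fun d hdm => ?_
    obtain ⟨hd1, hd2⟩ := mem_Ico.1 hdm
    have hσ : (u.drop (n1 - d)).length = d := by rw [List.length_drop]; omega
    have hv0 := phi_val j d hd1 hd2 (u.take (n1 - d)) (u.drop (n1 - d)) v s t hσ hv
    have hu' : P u = P (u.take (n1 - d)) * P (u.drop (n1 - d)) := by
      rw [← P_append, List.take_append_drop]
    have hx0 : (P (u.take (n1 - d)))⁻¹ = P (u.drop (n1 - d)) * (P u)⁻¹ := by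
      rw [hu']; group
    rw [← hv0, hd, hx0]
    have q3 : Q ψ (u ++ v) (0 :: s) (1 :: t) (d + L) =
        ψ (P (u.drop (n1 - d)) * (P u)⁻¹) (P (u.drop (n1 - d)) * P (v ++ 0 :: s))
          (P (u.drop (n1 - d)) * P (v ++ 1 :: t)) ^ 2 := by
      unfold Q
      have : (u ++ v).drop ((u ++ v).length - (d + L)) = u.drop (n1 - d) ++ v := by
        rw [List.length_append, hu, hv, show n1 + L - (d + L) = n1 - d by omega,
          List.drop_append_of_le_length (by omega)]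
      rw [this]
      simp only [P_append]
      congr 2 <;> group
    rw [q3]
    unfold Q
    simp only [hu, P_append (u.drop (n1 - d))]
    generalize ψ (P (u.drop (n1 - d)) * P (v ++ 0 :: s)) (P (u.drop (n1 - d)) * P (v ++ 1 :: t))
      (P (u.drop (n1 - d)) * P [nx v]) = a
    generalize ψ (P (u.drop (n1 - d)) * (P u)⁻¹) (P (u.drop (n1 - d)) * P (v ++ 1 :: t))
      (P (u.drop (n1 - d)) * P [nx v]) = b
    generalize ψ (P (u.drop (n1 - d)) * (P u)⁻¹) (P (u.drop (n1 - d)) * P (v ++ 0 :: s))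
      (P (u.drop (n1 - d)) * P [nx v]) = c
    generalize ψ (P (u.drop (n1 - d)) * (P u)⁻¹) (P (u.drop (n1 - d)) * P (v ++ 0 :: s))
      (P (u.drop (n1 - d)) * P (v ++ 1 :: t)) = e
    generalize ρ (P (u.drop (n1 - d)) * (P u)⁻¹) (P (u.drop (n1 - d)) * P (v ++ 0 :: s))
      (P (u.drop (n1 - d)) * P (v ++ 1 :: t)) (P (u.drop (n1 - d)) * P [nx v]) = f
    nlinarith [sq_nonneg (a + b), sq_nonneg (a - c), sq_nonneg (a + e), sq_nonneg (b + c),
      sq_nonneg (b - e), sq_nonneg (c + e), sq_nonneg (a - f), sq_nonneg (b + f),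
      sq_nonneg (c - f), sq_nonneg (e + f)]
  have main : Av n1 (fun _ => Av L (fun _ => Av n2 (fun s => Av n2 (fun t => lo s t)))) ≤
      Av n1 (fun u => Av L (fun v => Av n2 (fun s => Av n2 (fun t =>
        5 * t0 u v s t + 5 * t1 u v t + 5 * t2 u v s + 5 * t3 u v s t + 5 / 128)))) :=
    Av_mono _ fun u hu => Av_mono _ fun v hv => Av_mono _ fun s _ => Av_mono _ fun t _ =>
      (pt u v s t hu hv).trans (by linarith [b4 u v s t hu])
  simp only [Av_add, Av_mul, Av_const] at main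
  have b_lo : (9 : ℝ) / 128 ≤ Av n2 (fun s => Av n2 (fun t => lo s t)) := by
    simp only [lo, Av_sum, Av_mul]
    have : ∀ d ∈ Dj, (9 : ℝ) / 128 / 4 ^ j ≤ ((d : ℝ) / 8 ^ (j + 1)) ^ 2 *
        Av n2 (fun s => Av n2 (fun t => (ind s[3 * L - d - 2]? - ind t[3 * L - d - 2]?) ^ 2)) := by
      intro d hdm
      obtain ⟨hd1, hd2⟩ := mem_Ico.1 hdm
      rw [Av_ind n2 _ (by omega)]
      have hd1' : (3 : ℝ) * 4 ^ j ≤ d := by exact_mod_cast hd1
      have a4 : ((8 : ℝ) ^ (j + 1)) ^ 2 = 64 * (4 ^ j) ^ 3 := by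
        rw [pow_succ (8 : ℝ) j, mul_pow, ← pow_mul, ← pow_mul, mul_comm j 2, mul_comm j 3, pow_mul, pow_mul]
        norm_num; ring
      have b1 : ((3 : ℝ) * 4 ^ j) ^ 2 ≤ (d : ℝ) ^ 2 := pow_le_pow_left₀ (by positivity) hd1' 2
      rw [div_pow, a4]
      calc (9 : ℝ) / 128 / 4 ^ j = ((3 : ℝ) * 4 ^ j) ^ 2 / (64 * (4 ^ j) ^ 3) * (1 / 2) := by
            field_simp; ring
        _ ≤ _ := by gcongr
    have h := card_nsmul_le_sum Dj _ _ this
    rw [hDj, Nat.card_Ico, show L - 3 * 4 ^ j = 4 ^ j by omega, nsmul_eq_mul] at h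
    refine le_trans (le_of_eq ?_) h
    push_cast; field_simp
  have b0 : Av n1 (fun u => Av L (fun v => Av n2 (fun s => Av n2 (fun t => t0 u v s t)))) ≤
      ∑ d ∈ Dj, B / 2 ^ d := by
    rw [Av_comm]
    refine Av_le _ fun v _ => ?_
    rw [Av_comm]
    refine Av_le _ fun s _ => ?_
    rw [Av_comm]
    refine Av_le _ fun t _ => ?_
    simp only [t0, Av_sum]
    refine sum_le_sum fun d hdm => ?_
    obtain ⟨hd1, hd2⟩ := mem_Ico.1 hdm
    exact Av_free hB n1 d (by omega) _ _ _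
  have b12 : ∀ c : Fin 2, Av n1 (fun u => Av L (fun v => Av n2 (fun s =>
      ∑ d ∈ Dj, Q ψ u (v ++ c :: s) [nx v] d))) ≤ 4 * H ψ n1 (n2 + L + 1) 1 Dj := by
    intro c
    unfold H
    rw [← Av_mul]
    refine Av_mono _ fun u _ => ?_
    rw [show n2 + L + 1 = L + (n2 + 1) by ring, Av_append, ← Av_mul]
    refine Av_mono _ fun v _ => ?_
    have k1 := Av_cons_le n2 c (fun S => Av 1 (fun T => ∑ d ∈ Dj, Q ψ u (v ++ S) T d))
      (fun S => Av_nonneg _ fun T => sum_nonneg fun d _ => Q_nonneg ψ _ _ _ _)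
    have k2 : Av n2 (fun s => ∑ d ∈ Dj, Q ψ u (v ++ c :: s) [nx v] d) ≤
        2 * Av n2 (fun s => Av 1 (fun T => ∑ d ∈ Dj, Q ψ u (v ++ c :: s) T d)) := by
      rw [← Av_mul]
      refine Av_mono _ fun s _ => ?_
      exact Av_cons_le 0 (nx v) (fun T => ∑ d ∈ Dj, Q ψ u (v ++ c :: s) T d)
        (fun T => sum_nonneg fun d _ => Q_nonneg ψ _ _ _ _)
    linarith
  have b3 : Av n1 (fun u => Av L (fun v => Av n2 (fun s => Av n2 (fun t => t3 u v s t)))) ≤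
      4 * H ψ (n1 + L) (n2 + 1) (n2 + 1) (Ico (7 * 4 ^ j) (8 * 4 ^ j)) := by
    unfold H
    rw [Av_append, ← Av_mul]
    refine Av_mono _ fun u _ => ?_
    rw [← Av_mul]
    refine Av_mono _ fun v _ => ?_
    have k1 := Av_cons_le n2 0 (fun S => Av (n2 + 1) (fun T =>
      ∑ d ∈ Ico (7 * 4 ^ j) (8 * 4 ^ j), Q ψ (u ++ v) S T d))
      (fun S => Av_nonneg _ fun T => sum_nonneg fun d _ => Q_nonneg ψ _ _ _ _)
    have k2 : Av n2 (fun s => Av n2 (fun t => t3 u v s t)) ≤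
        2 * Av n2 (fun s => Av (n2 + 1) (fun T =>
          ∑ d ∈ Ico (7 * 4 ^ j) (8 * 4 ^ j), Q ψ (u ++ v) (0 :: s) T d)) := by
      rw [← Av_mul]
      refine Av_mono _ fun s _ => ?_
      exact Av_cons_le n2 1 (fun T => ∑ d ∈ Ico (7 * 4 ^ j) (8 * 4 ^ j), Q ψ (u ++ v) (0 :: s) T d)
        (fun T => sum_nonneg fun d _ => Q_nonneg ψ _ _ _ _)
    linarith
  have b1 := b12 1
  have b2 := b12 0
  linarith

theorem no_approx : False := by
  have hB0 : 0 ≤ B := by simpa using hB 1 1 1 ∅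
  obtain ⟨J, hJ⟩ := exists_nat_gt (4160 * B)
  set N := 4 ^ (J + 1) with hN
  have hNpos : 0 < N := by positivity
  have hle : ∀ j < J, 4 ^ (j + 2) ≤ N := fun j hj => Nat.pow_le_pow_right (by norm_num) (by omega)
  have e1 : ∀ j, 4 ^ (j + 1) = 4 * 4 ^ j := fun j => by ring
  have e2 : ∀ j, 4 ^ (j + 2) = 16 * 4 ^ j := fun j => by ring
  let DA : ℕ → Finset ℕ := fun j => Ico (7 * 4 ^ j) (8 * 4 ^ j)
  let DB : ℕ → Finset ℕ := fun j => Ico (3 * 4 ^ j) (4 ^ (j + 1))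
  have lA : ∀ j, ∀ d ∈ DA j, Nat.log 4 d - 1 = j := by
    intro j d hdm
    obtain ⟨h1, h2⟩ := mem_Ico.1 hdm
    have := e1 j; have := e2 j
    rw [Nat.log_eq_of_pow_le_of_lt_pow (m := j + 1) (by omega)
      (by rw [show j + 1 + 1 = j + 2 by ring]; omega)]
    omega
  have lB : ∀ j, ∀ d ∈ DB j, Nat.log 4 d = j := by
    intro j d hdm
    obtain ⟨h1, h2⟩ := mem_Ico.1 hdm
    exact Nat.log_eq_of_pow_le_of_lt_pow (by omega) h2
  have mA : ∀ j < J, ∀ d ∈ DA j, d < N := by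
    intro j hj d hdm
    obtain ⟨h1, h2⟩ := mem_Ico.1 hdm
    have := e2 j; have := hle j hj; omega
  have mB : ∀ j < J, ∀ d ∈ DB j, d < N := by
    intro j hj d hdm
    obtain ⟨h1, h2⟩ := mem_Ico.1 hdm
    have := e1 j; have := e2 j; have := hle j hj; omega
  have total : ∑ j ∈ range J, ∑ n1 ∈ Ico N (2 * N), ∑ n2 ∈ Ico N (2 * N), (1 : ℝ) / 32 ≤
      ∑ j ∈ range J, ∑ n1 ∈ Ico N (2 * N), ∑ n2 ∈ Ico N (2 * N),
        (20 * H ψ (n1 + 4 ^ (j + 1)) (n2 + 1) (n2 + 1) (DA j) +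
          40 * H ψ n1 (n2 + 4 ^ (j + 1) + 1) 1 (DB j) + 5 * ∑ d ∈ DB j, B / 2 ^ d) := by
    refine sum_le_sum fun j hj => sum_le_sum fun n1 h1 => sum_le_sum fun n2 h2 => ?_
    have := hle j (mem_range.1 hj); have := e1 j; have := e2 j
    have := (mem_Ico.1 h1).1; have := (mem_Ico.1 h2).1
    exact step hB hρ hd j n1 n2 (by omega) (by omega)
  simp only [sum_add_distrib, ← mul_sum] at total
  have c1 : (Ico N (2 * N)).card = N := by rw [Nat.card_Ico]; omega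
  have c2 : (Ico N (3 * N)).card = 2 * N := by rw [Nat.card_Ico]; omega
  have sA : ∑ j ∈ range J, ∑ n1 ∈ Ico N (2 * N), ∑ n2 ∈ Ico N (2 * N),
      H ψ (n1 + 4 ^ (j + 1)) (n2 + 1) (n2 + 1) (DA j) ≤ 2 * N * (N * B) := by
    calc _ ≤ ∑ j ∈ range J, ∑ α ∈ Ico N (3 * N), ∑ n2 ∈ Ico N (2 * N),
          H ψ α (n2 + 1) (n2 + 1) (DA j) := by
          refine sum_le_sum fun j hj => ?_
          have := hle j (mem_range.1 hj); have := e1 j; have := e2 j
          exact sum_shift N (4 ^ (j + 1)) (by omega)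
            (fun α => ∑ n2 ∈ Ico N (2 * N), H ψ α (n2 + 1) (n2 + 1) (DA j))
            (fun α => sum_nonneg fun _ _ => H_nonneg ψ _ _ _ _)
      _ = ∑ α ∈ Ico N (3 * N), ∑ n2 ∈ Ico N (2 * N), ∑ j ∈ range J,
          H ψ α (n2 + 1) (n2 + 1) (DA j) := by
          rw [sum_comm]; exact sum_congr rfl fun α _ => sum_comm
      _ ≤ ∑ α ∈ Ico N (3 * N), ∑ n2 ∈ Ico N (2 * N), B := by
          refine sum_le_sum fun α hα => sum_le_sum fun n2 _ => ?_
          have := (mem_Ico.1 hα).1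
          exact H_sum hB _ _ _ J DA (fun d => Nat.log 4 d - 1) lA
            (fun j hj d hdm => by have := mA j hj d hdm; omega)
      _ = _ := by simp [c1, c2]
  have sB : ∑ j ∈ range J, ∑ n1 ∈ Ico N (2 * N), ∑ n2 ∈ Ico N (2 * N),
      H ψ n1 (n2 + 4 ^ (j + 1) + 1) 1 (DB j) ≤ N * (2 * N * B) := by
    calc _ ≤ ∑ j ∈ range J, ∑ n1 ∈ Ico N (2 * N), ∑ β ∈ Ico N (3 * N),
          H ψ n1 (β + 1) 1 (DB j) := by
          refine sum_le_sum fun j hj => sum_le_sum fun n1 _ => ?_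
          have := hle j (mem_range.1 hj); have := e1 j; have := e2 j
          exact sum_shift N (4 ^ (j + 1)) (by omega) (fun β => H ψ n1 (β + 1) 1 (DB j))
            (fun β => H_nonneg ψ _ _ _ _)
      _ = ∑ n1 ∈ Ico N (2 * N), ∑ β ∈ Ico N (3 * N), ∑ j ∈ range J,
          H ψ n1 (β + 1) 1 (DB j) := by
          rw [sum_comm]; exact sum_congr rfl fun α _ => sum_comm
      _ ≤ ∑ n1 ∈ Ico N (2 * N), ∑ β ∈ Ico N (3 * N), B := by
          refine sum_le_sum fun α hα => sum_le_sum fun n2 _ => ?_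
          have := (mem_Ico.1 hα).1
          exact H_sum hB _ _ _ J DB (Nat.log 4) lB
            (fun j hj d hdm => by have := mB j hj d hdm; omega)
      _ = _ := by simp [c1, c2]
  have sC : ∑ j ∈ range J, ∑ _n1 ∈ Ico N (2 * N), ∑ _n2 ∈ Ico N (2 * N),
      ∑ d ∈ DB j, B / 2 ^ d ≤ N * (N * (2 * B)) := by
    simp only [sum_const, c1, nsmul_eq_mul, ← mul_sum]
    gcongr
    refine (sum_blocks J N DB (Nat.log 4) lB mB (fun d => B / 2 ^ d)
      (fun d => by positivity)).trans ?_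
    have := sum_geometric_two_le N
    calc ∑ d ∈ range N, B / 2 ^ d = B * ∑ d ∈ range N, (1 / (2 : ℝ)) ^ d := by
          rw [mul_sum]; exact sum_congr rfl fun d _ => by rw [one_div, inv_pow, div_eq_mul_inv]
      _ ≤ B * 2 := by gcongr
      _ = 2 * B := by ring
  simp only [sum_const, c1, nsmul_eq_mul, card_range] at total
  have hN' : (0 : ℝ) < (N : ℝ) * N := by positivity
  have : (J : ℝ) * (1 / 32) * (N * N) ≤ 130 * B * (N * N) := by
    simp only [sum_const, c1, nsmul_eq_mul] at sC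
    nlinarith
  have := le_of_mul_le_mul_right this hN'
  linarith

end

end Pool.Agent.MP_181f73_al.H22
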